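import Pool.Agent.Lib_helper45.FanFinal

/-!
# The non-smooth fan built from tilted combs is planar
-/

namespace Pool.Agent.Results.MP_4f06c8_gt.FanIsPlanar

open Pool.Agent.CombFan

/-- Let `h : K → [0,1]` be upper semicontinuous, `L n ⊆ K` (the sets `K_{n+1}` of the problem) and
`φ n : K → L n` homeomorphisms. If the sets `L n` are pairwise disjoint, or if merely the space `F`
has at most one ramification point (in particular, if `F` is a fan), then `F` is planar. -/
theorem result (h : cantorSet → ℝ) (husc : UpperSemicontinuous h)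
    (h01 : ∀ x, h x ∈ Set.Icc (0 : ℝ) 1) (L : ℕ → Set ℝ) (hL : ∀ n, L n ⊆ cantorSet)
    (φ : ∀ n, cantorSet ≃ₜ L n)
    (hchoice : (∀ n m, n ≠ m → Disjoint (L n) (L m)) ∨
      (∀ p q : FanSpace h L φ, IsRamificationPoint p → IsRamificationPoint q → p = q)) :
    IsPlanar (FanSpace h L φ) := by
  apply Pool.Agent.Lib45.planar_of_disj husc h01 hL
  rcases hchoice with hd | hr
  · intro n m x hn hm
    by_contra hnm
    exact Set.disjoint_left.1 (hd n m hnm) (Pool.Agent.Lib45.mem_of_HH hn)
      (Pool.Agent.Lib45.mem_of_HH hm)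
  · exact Pool.Agent.Lib45.disj_of_fan (fun x => (h01 x).2) hL
      (fun p hp q hq => hr p q hp hq)

end Pool.Agent.Results.MP_4f06c8_gt.FanIsPlanar
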